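import Mathlib

set_option autoImplicit false

namespace Pool.Agent.Results.MP_cac0a5_al.Embed

open Function

/-- The product topology on `α → X`, with `X` discrete. -/
@[reducible] def ptTop (α X : Type) : TopologicalSpace (α → X) :=
  @Pi.topologicalSpace α (fun _ => X) (fun _ => ⊥)

/-- Local clones on `X`; `ops n` is the set of operations of arity `n + 1`. -/
@[ext] structure LocClone (X : Type) where
  ops : ∀ n : ℕ, Set ((Fin (n + 1) → X) → X)
  proj : ∀ (n : ℕ) (k : Fin (n + 1)), (fun x => x k) ∈ ops n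
  comp : ∀ (n m : ℕ) (f : (Fin (n + 1) → X) → X) (g : Fin (n + 1) → (Fin (m + 1) → X) → X),
    f ∈ ops n → (∀ i, g i ∈ ops m) → (fun x => f fun i => g i x) ∈ ops m
  closed : ∀ n, @IsClosed _ (ptTop (Fin (n + 1) → X) X) (ops n)

/-- Closed transformation monoids on `X`. -/
@[ext] structure LocMon (X : Type) where
  carrier : Set (X → X)
  id_mem : id ∈ carrier
  comp_mem : ∀ f g, f ∈ carrier → g ∈ carrier → f ∘ g ∈ carrier
  closed : @IsClosed _ (ptTop X X) carrier

/-- Permutation groups on `X` closed in the space of all permutations of `X`. -/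
@[ext] structure LocGrp (X : Type) where
  carrier : Subgroup (Equiv.Perm X)
  closed : @IsClosed _ (TopologicalSpace.induced (fun g : Equiv.Perm X => (g : X → X)) (ptTop X X))
    (carrier : Set (Equiv.Perm X))

instance (X : Type) : PartialOrder (LocClone X) :=
  PartialOrder.lift LocClone.ops fun _ _ h => LocClone.ext h

instance (X : Type) : PartialOrder (LocMon X) :=
  PartialOrder.lift LocMon.carrier fun _ _ h => LocMon.ext h

instance (X : Type) : PartialOrder (LocGrp X) :=
  PartialOrder.lift LocGrp.carrier fun _ _ h => LocGrp.ext h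

instance (X : Type) : InfSet (LocClone X) where
  sInf S :=
    { ops := fun n => ⋂ C ∈ S, C.ops n
      proj := fun n k => Set.mem_iInter₂.2 fun C _ => C.proj n k
      comp := fun n m f g hf hg => Set.mem_iInter₂.2 fun C hC =>
        C.comp n m f g (Set.mem_iInter₂.1 hf C hC) fun i => Set.mem_iInter₂.1 (hg i) C hC
      closed := fun n => @isClosed_biInter _ _ (ptTop _ _) _ _ fun C _ => C.closed n }

instance (X : Type) : InfSet (LocMon X) where
  sInf S :=
    { carrier := ⋂ C ∈ S, C.carrier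
      id_mem := Set.mem_iInter₂.2 fun C _ => C.id_mem
      comp_mem := fun f g hf hg => Set.mem_iInter₂.2 fun C hC =>
        C.comp_mem f g (Set.mem_iInter₂.1 hf C hC) (Set.mem_iInter₂.1 hg C hC)
      closed := @isClosed_biInter _ _ (ptTop _ _) _ _ fun C _ => C.closed }

instance (X : Type) : InfSet (LocGrp X) where
  sInf S :=
    { carrier := ⨅ C ∈ S, C.carrier
      closed := by
        simp only [Subgroup.coe_iInf]
        exact @isClosed_biInter _ _
          (TopologicalSpace.induced (fun g : Equiv.Perm X => (g : X → X)) (ptTop X X)) _ _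
          fun C _ => C.closed }

/-- The lattice of local clones under inclusion. -/
instance (X : Type) : CompleteLattice (LocClone X) :=
  completeLatticeOfInf _ fun _ =>
    ⟨fun C hC _ _ hf => Set.mem_iInter₂.1 hf C hC,
      fun _ hD n _ hf => Set.mem_iInter₂.2 fun _ hC => hD hC n hf⟩

/-- The lattice of closed monoids under inclusion. -/
instance (X : Type) : CompleteLattice (LocMon X) :=
  completeLatticeOfInf _ fun _ =>
    ⟨fun C hC _ hf => Set.mem_iInter₂.1 hf C hC,
      fun _ hD _ hf => Set.mem_iInter₂.2 fun _ hC => hD hC hf⟩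

/-- The lattice of closed permutation groups under inclusion. -/
instance (X : Type) : CompleteLattice (LocGrp X) :=
  completeLatticeOfInf _ fun S =>
    ⟨fun C hC => iInf₂_le (f := fun (C : LocGrp X) (_ : C ∈ S) => C.carrier) C hC,
      fun _ hD => le_iInf₂ (f := fun (C : LocGrp X) (_ : C ∈ S) => C.carrier) fun _ hC => hD hC⟩

theorem closed_iff {α X : Type} (S : Set (α → X)) : @IsClosed _ (ptTop α X) S ↔
    ∀ f : α → X, (∀ F : Finset α, ∃ g ∈ S, ∀ a ∈ F, g a = f a) → f ∈ S := by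
  letI : TopologicalSpace X := ⊥
  haveI : DiscreteTopology X := ⟨rfl⟩
  show IsClosed S ↔ _
  rw [← isOpen_compl_iff, isOpen_pi_iff]
  constructor
  · intro h f hf
    by_contra hn
    obtain ⟨I, u, h1, h2⟩ := h f hn
    obtain ⟨g, hg, h3⟩ := hf I
    exact h2 (fun a ha => by rw [h3 a ha]; exact (h1 a ha).2) hg
  · intro h f hf
    by_contra hn
    apply hf
    apply h f
    intro F
    by_contra h1
    apply hn
    refine ⟨F, fun a => {f a}, fun a _ => ⟨isOpen_discrete _, rfl⟩, fun g hg hS => h1 ⟨g, hS, ?_⟩⟩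
    exact fun a ha => hg a ha

theorem closed_iff' {X : Type} (H : Set (Equiv.Perm X)) :
    @IsClosed _ (TopologicalSpace.induced (fun g : Equiv.Perm X => (g : X → X)) (ptTop X X)) H ↔
    ∀ f : Equiv.Perm X, (∀ F : Finset X, ∃ g ∈ H, ∀ a ∈ F, g a = f a) → f ∈ H := by
  rw [@isClosed_induced_iff _ _ (ptTop X X)]
  constructor
  · rintro ⟨t, ht, rfl⟩ f hf
    refine (closed_iff t).1 ht f fun F => ?_
    obtain ⟨g, hg, h⟩ := hf F
    exact ⟨g, hg, h⟩
  · intro h
    refine ⟨{f | ∀ F : Finset X, ∃ g ∈ H, ∀ a ∈ F, g a = f a}, (closed_iff _).2 ?_, ?_⟩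
    · intro f hf F
      obtain ⟨g, hg, h1⟩ := hf F
      obtain ⟨k, hk, h2⟩ := hg F
      exact ⟨k, hk, fun a ha => (h2 a ha).trans (h1 a ha)⟩
    · ext f
      exact ⟨h f, fun hf F => ⟨f, hf, fun _ _ => rfl⟩⟩

def Emb (L K : Type) [Lattice L] [Lattice K] : Prop := ∃ Φ : LatticeHom L K, Injective Φ

theorem Emb.trans {L K M : Type} [Lattice L] [Lattice K] [Lattice M] (h1 : Emb L K)
    (h2 : Emb K M) : Emb L M := by
  obtain ⟨f, hf⟩ := h1
  obtain ⟨g, hg⟩ := h2
  exact ⟨g.comp f, hg.comp hf⟩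

theorem mkEmb {L K : Type} [Lattice L] [Lattice K] (Φ : L → K) (mono : Monotone Φ)
    (refl : ∀ a b, Φ a ≤ Φ b → a ≤ b)
    (hinf : ∀ a b h, h ≤ Φ a → h ≤ Φ b → ∃ e, e ≤ a ∧ e ≤ b ∧ h ≤ Φ e)
    (hsup : ∀ a b h, Φ a ≤ h → Φ b ≤ h → ∃ e, a ≤ e ∧ b ≤ e ∧ Φ e ≤ h) : Emb L K := by
  refine ⟨⟨⟨Φ, fun a b => ?_⟩, fun a b => ?_⟩, fun a b h => ?_⟩
  · refine le_antisymm ?_ (mono.le_map_sup a b)
    obtain ⟨e, h1, h2, h3⟩ := hsup a b _ le_sup_left le_sup_right
    exact (mono (sup_le h1 h2)).trans h3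
  · refine le_antisymm (mono.map_inf_le a b) ?_
    obtain ⟨e, h1, h2, h3⟩ := hinf a b _ inf_le_left inf_le_right
    exact h3.trans (mono (le_inf h1 h2))
  · exact le_antisymm (refl _ _ (le_of_eq h)) (refl _ _ (le_of_eq h.symm))

theorem isoEmb {L K : Type} [Lattice L] [Lattice K] (Φ : L → K) (Ψ : K → L) (m1 : Monotone Φ)
    (m2 : Monotone Ψ) (h1 : ∀ a, Ψ (Φ a) = a) (h2 : ∀ a, Φ (Ψ a) = a) : Emb L K :=
  mkEmb Φ m1 (fun a b h => by simpa [h1] using m2 h)
    (fun a b h ha hb => ⟨Ψ h, by simpa [h1] using m2 ha, by simpa [h1] using m2 hb, (h2 h).ge⟩)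
    (fun a b h ha hb => ⟨Ψ h, by simpa [h1] using m2 ha, by simpa [h1] using m2 hb, (h2 h).le⟩)

/-! Transport along bijections -/

def trM {X Y : Type} (e : X ≃ Y) (M : LocMon X) : LocMon Y where
  carrier := {f | e.symm ∘ f ∘ e ∈ M.carrier}
  id_mem := by
    have : e.symm ∘ id ∘ e = id := by ext; simp
    show _ ∈ M.carrier
    rw [this]; exact M.id_mem
  comp_mem f g hf hg := by
    have : e.symm ∘ (f ∘ g) ∘ e = (e.symm ∘ f ∘ e) ∘ (e.symm ∘ g ∘ e) := by ext; simp
    show _ ∈ M.carrier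
    rw [this]; exact M.comp_mem _ _ hf hg
  closed := by
    classical
    rw [closed_iff]
    intro f hf
    refine (closed_iff _).1 M.closed _ fun F => ?_
    obtain ⟨g, hg, h⟩ := hf (F.image e)
    exact ⟨_, hg, fun a ha => by simp [h _ (Finset.mem_image_of_mem e ha)]⟩

theorem emb_trM {X Y : Type} (e : X ≃ Y) : Emb (LocMon X) (LocMon Y) := by
  have key : ∀ {X Y : Type} (e : X ≃ Y) (M : LocMon X), trM e.symm (trM e M) = M := by
    intro X Y e M
    ext f
    have : e.symm ∘ (e.symm.symm ∘ f ∘ e.symm) ∘ e = f := by ext; simp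
    show e.symm ∘ (e.symm.symm ∘ f ∘ e.symm) ∘ e ∈ M.carrier ↔ _
    rw [this]
  exact isoEmb (trM e) (trM e.symm) (fun _ _ h _ hf => h hf) (fun _ _ h _ hf => h hf) (key e)
    (key e.symm)

def trG {X Y : Type} (e : X ≃ Y) (M : LocGrp X) : LocGrp Y where
  carrier := M.carrier.comap e.symm.permCongrHom.toMonoidHom
  closed := by
    classical
    rw [closed_iff']
    intro f hf
    refine (closed_iff' _).1 M.closed _ fun F => ?_
    obtain ⟨g, hg, h⟩ := hf (F.image e)
    exact ⟨_, hg, fun a ha => by simp [h _ (Finset.mem_image_of_mem e ha)]⟩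

theorem emb_trG {X Y : Type} (e : X ≃ Y) : Emb (LocGrp X) (LocGrp Y) := by
  have key : ∀ {X Y : Type} (e : X ≃ Y) (M : LocGrp X), trG e.symm (trG e M) = M := by
    intro X Y e M
    ext f
    have : e.symm.permCongr (e.symm.symm.permCongr f) = f := by ext; simp
    show e.symm.permCongr (e.symm.symm.permCongr f) ∈ M.carrier ↔ _
    rw [this]
  exact isoEmb (trG e) (trG e.symm) (fun _ _ h _ hf => h hf) (fun _ _ h _ hf => h hf) (key e)
    (key e.symm)

/-! Step 1: clones into monoids -/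

section Step1
variable {X : Type}

def Sq (X : Type) : Type := {s : ℕ → X // ∃ N, ∀ i, N < i → s i = s 0}

def idx (n i : ℕ) : Fin (n + 1) := if h : i < n + 1 then ⟨i, h⟩ else 0

theorem idx_zero (n : ℕ) : idx n 0 = 0 := by simp [idx]

theorem idx_val (n : ℕ) (i : Fin (n + 1)) : idx n i = i := by simp [idx, i.2]

def emb (n : ℕ) (x : Fin (n + 1) → X) : Sq X :=
  ⟨fun i => x (idx n i), n, fun i hi => by
    simp only [idx_zero]
    rw [idx, dif_neg (by omega)]⟩

theorem emb_res (n : ℕ) (s : Sq X) (h : ∀ i, n < i → s.1 i = s.1 0) :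
    emb n (fun i => s.1 i) = s := by
  apply Subtype.ext
  funext i
  show s.1 (idx n i) = s.1 i
  unfold idx
  split_ifs with h1
  · rfl
  · exact (h i (by omega)).symm

theorem exists_bound (F : Finset (Sq X)) : ∃ n, ∀ s ∈ F, ∀ i, n < i → s.1 i = s.1 0 := by
  classical
  induction F using Finset.induction_on with
  | empty => exact ⟨0, by simp⟩
  | insert s F _ ih =>
    obtain ⟨n, hn⟩ := ih
    obtain ⟨m, hm⟩ := s.2
    refine ⟨max n m, fun t ht i hi => ?_⟩
    rcases Finset.mem_insert.1 ht with rfl | ht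
    · exact hm i (lt_of_le_of_lt (le_max_right _ _) hi)
    · exact hn t ht i (lt_of_le_of_lt (le_max_left _ _) hi)

def MC (C : LocClone X) : LocMon (Sq X) where
  carrier := {φ | ∀ n j, (fun x => (φ (emb n x)).1 j) ∈ C.ops n}
  id_mem n j := C.proj n (idx n j)
  comp_mem φ ψ hφ hψ n j := by
    classical
    refine (closed_iff _).1 (C.closed n) _ fun F => ?_
    obtain ⟨m, hm⟩ := exists_bound (F.image fun x => ψ (emb n x))
    refine ⟨_, C.comp m n _ (fun i x => (ψ (emb n x)).1 i) (hφ m j) fun i => hψ n i, ?_⟩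
    intro x hx
    show (φ (emb m fun i => (ψ (emb n x)).1 i)).1 j = _
    rw [emb_res m _ (hm _ (Finset.mem_image_of_mem _ hx))]
    rfl
  closed := by
    classical
    rw [closed_iff]
    intro φ hφ n j
    refine (closed_iff _).1 (C.closed n) _ fun F => ?_
    obtain ⟨ψ, hψ, h⟩ := hφ (F.image (emb n))
    exact ⟨_, hψ n j, fun x hx => by rw [h _ (Finset.mem_image_of_mem _ hx)]⟩

/-- write `f (s ∘ σ)` in cell `k + 1` -/
def wr (k : ℕ) {n : ℕ} (f : (Fin (n + 1) → X) → X) (σ : Fin (n + 1) → ℕ) (s : Sq X) : Sq X :=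
  ⟨fun i => if i = k + 1 then f (fun l => s.1 (σ l)) else s.1 i, by
    obtain ⟨N, hN⟩ := s.2
    refine ⟨max N (k + 1), fun i hi => ?_⟩
    have h1 : N < i := lt_of_le_of_lt (le_max_left _ _) hi
    have h2 : k + 1 < i := lt_of_le_of_lt (le_max_right _ _) hi
    simp only [if_neg h2.ne', hN i h1]
    rw [if_neg (by omega)]⟩

theorem wr_mem (C : LocClone X) (k : ℕ) {n : ℕ} (f : (Fin (n + 1) → X) → X) (hf : f ∈ C.ops n)
    (σ : Fin (n + 1) → ℕ) : wr k f σ ∈ (MC C).carrier := by
  intro m j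
  by_cases h : j = k + 1
  · simp only [wr, if_pos h]
    exact C.comp n m f (fun l x => x (idx m (σ l))) hf fun l => C.proj m _
  · simp only [wr, if_neg h]
    exact C.proj m _

theorem relabel_mem (C : LocClone X) (n : ℕ) (σ : Fin (n + 1) → ℕ) :
    (fun s : Sq X => emb n fun l => s.1 (σ l)) ∈ (MC C).carrier :=
  fun m _ => C.proj m _

theorem multi_wr (H : LocMon (Sq X)) (N : ℕ) {m : ℕ} (σ : Fin (m + 1) → ℕ) (hσ : ∀ l, σ l ≤ N)
    (g : ℕ → (Fin (m + 1) → X) → X) (r : ℕ) (hg : ∀ i < r, ∀ k, wr k (g i) σ ∈ H.carrier) :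
    ∃ φ ∈ H.carrier, ∀ s : Sq X, (∀ i ≤ N, (φ s).1 i = s.1 i) ∧
      ∀ i < r, (φ s).1 (N + i + 1) = g i fun l => s.1 (σ l) := by
  induction r with
  | zero => exact ⟨id, H.id_mem, fun s => ⟨fun _ _ => rfl, by simp⟩⟩
  | succ r ih =>
    obtain ⟨φ, hφ, h⟩ := ih fun i hi => hg i (by omega)
    refine ⟨wr (N + r) (g r) σ ∘ φ, H.comp_mem _ _ (hg r (by omega) _) hφ, fun s => ⟨?_, ?_⟩⟩
    · intro i hi
      simp only [comp_apply, wr]
      rw [if_neg (by omega)]
      exact (h s).1 i hi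
    · intro i hi
      simp only [comp_apply, wr]
      by_cases e : i = r
      · subst e
        rw [if_pos rfl]
        congr 1
        funext l
        exact (h s).1 _ (hσ l)
      · rw [if_neg (by omega)]
        exact (h s).2 i (by omega)

def preC (H : LocMon (Sq X)) (C : LocClone X) (hC : MC C ≤ H) : LocClone X where
  ops n := {f | ∀ k σ, wr k f σ ∈ H.carrier}
  proj n l k σ := hC (wr_mem C k _ (C.proj n l) σ)
  comp n m f g hf hg k σ := by
    refine (closed_iff _).1 H.closed _ fun F => ?_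
    obtain ⟨N0, hN0⟩ := exists_bound F
    obtain ⟨N1, hN1⟩ := (Set.finite_range σ).bddAbove
    set N := N0 + N1 + k + 1 with hN
    obtain ⟨φ, hφ, h⟩ := multi_wr H N σ (fun l => by have := hN1 ⟨l, rfl⟩; omega)
      (fun i => g (idx n i)) (n + 1) fun i _ k => hg _ k σ
    refine ⟨_, H.comp_mem _ _ (hC (relabel_mem C N fun l => l))
      (H.comp_mem _ _ (hf k fun l => N + l + 1) hφ), fun s hs => ?_⟩
    rw [← emb_res N (wr k (fun x => f fun i => g i x) σ s)]
    · simp only [comp_apply]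
      congr 1
      funext l
      simp only [wr]
      split_ifs with e
      · congr 1
        funext i
        rw [(h s).2 i i.2, idx_val]
      · exact (h s).1 l (by omega)
    · intro i hi
      simp only [wr]
      rw [if_neg (by omega), if_neg (by omega)]
      exact hN0 s hs i (by omega)
  closed n := by
    classical
    rw [closed_iff]
    intro f hf k σ
    refine (closed_iff _).1 H.closed _ fun F => ?_
    obtain ⟨g, hg, h⟩ := hf (F.image fun s l => s.1 (σ l))
    refine ⟨_, hg k σ, fun s hs => ?_⟩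
    apply Subtype.ext
    simp only [wr]
    rw [h _ (Finset.mem_image_of_mem _ hs)]

theorem step1 : Emb (LocClone X) (LocMon (Sq X)) := by
  classical
  refine mkEmb MC (fun C D h φ hφ n j => h n (hφ n j)) ?_ ?_ ?_
  · intro C D h n f hf
    have := h (wr_mem C 0 f hf fun l => l) n 1
    simpa [wr, emb, idx_val] using this
  · intro C D H h1 h2
    refine ⟨sInf {C, D}, sInf_le (by simp), sInf_le (by simp), fun φ hφ n j => ?_⟩
    refine Set.mem_iInter₂.2 ?_
    rintro E (rfl | rfl)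
    · exact h1 hφ n j
    · exact h2 hφ n j
  · intro C D H h1 h2
    refine ⟨preC H C h1, fun n f hf k σ => h1 (wr_mem C k f hf σ),
      fun n f hf k σ => h2 (wr_mem D k f hf σ), fun ψ hψ => ?_⟩
    refine (closed_iff _).1 H.closed _ fun F => ?_
    obtain ⟨n, hn⟩ := exists_bound (F ∪ F.image ψ)
    obtain ⟨φ, hφ, h⟩ := multi_wr H n (m := n) (fun l => l) (fun l => by omega)
      (fun j x => (ψ (emb n x)).1 j) (n + 1) fun i _ k => hψ n i k _
    refine ⟨_, H.comp_mem _ _ (h1 (relabel_mem C n fun l => n + l + 1)) hφ, fun s hs => ?_⟩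
    rw [← emb_res n (ψ s) (hn _ (Finset.mem_union_right _ (Finset.mem_image_of_mem _ hs)))]
    simp only [comp_apply]
    congr 1
    funext l
    rw [(h s).2 l l.2, emb_res n s (hn _ (Finset.mem_union_left _ hs))]

instance [Countable X] : Countable (Sq X) := by
  have : Surjective fun p : (Σ n : ℕ, Fin (n + 1) → X) => emb p.1 p.2 := by
    intro s
    obtain ⟨N, hN⟩ := s.2
    exact ⟨⟨N, fun i => s.1 i⟩, emb_res N s hN⟩
  exact this.countable

instance [Infinite X] : Infinite (Sq X) :=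
  Infinite.of_injective (fun x : X => (⟨fun _ => x, 0, fun _ _ => rfl⟩ : Sq X)) fun _ _ h =>
    congrFun (congrArg Subtype.val h) 0

end Step1

/-! Step 2: monoids into rings -/

section Step2
variable {Y : Type}

abbrev AA (Y : Type) : Type := List Y →₀ ℤ

noncomputable def lm (π : List Y → List Y) : Module.End ℤ (AA Y) := Finsupp.lmapDomain ℤ ℤ π

theorem lm_single (π : List Y → List Y) (t : List Y) (c : ℤ) :
    lm π (Finsupp.single t c) = Finsupp.single (π t) c := by
  simp [lm]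

theorem lm_mul (π ρ : List Y → List Y) : lm π * lm ρ = lm (π ∘ ρ) := by
  apply Finsupp.lhom_ext
  intro t c
  simp [lm_single]

theorem lm_id : lm (id : List Y → List Y) = 1 := by
  apply Finsupp.lhom_ext
  intro t c
  simp [lm_single]

def NatF (π : List Y → List Y) : Prop := ∀ (f : Y → Y) t, π (t.map f) = (π t).map f

def IsNat (r : Module.End ℤ (AA Y)) : Prop := ∀ π, NatF π → r * lm π = lm π * r

theorem apply_eq_sum (r : Module.End ℤ (AA Y)) (a : AA Y) :
    r a = ∑ q ∈ a.support, a q • r (Finsupp.single q 1) := by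
  conv_lhs => rw [← Finsupp.sum_single a, Finsupp.sum, map_sum]
  refine Finset.sum_congr rfl fun q _ => ?_
  rw [← map_smul, Finsupp.smul_single, smul_eq_mul, mul_one]

theorem supp_apply (r : Module.End ℤ (AA Y)) (a : AA Y) (p : List Y) (hp : p ∈ (r a).support) :
    ∃ q ∈ a.support, p ∈ (r (Finsupp.single q 1)).support := by
  by_contra h
  push Not at h
  rw [Finsupp.mem_support_iff, apply_eq_sum, Finsupp.finset_sum_apply] at hp
  apply hp
  refine Finset.sum_eq_zero fun q hq => ?_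
  rw [Finsupp.smul_apply, Finsupp.notMem_support_iff.1 (h q hq), smul_zero]

def RM (M : LocMon Y) : Subring (Module.End ℤ (AA Y)) where
  carrier := {r | IsNat r ∧
    ∀ t, ∀ p ∈ (r (Finsupp.single t 1)).support, ∃ f ∈ M.carrier, p = t.map f}
  mul_mem' := by
    rintro r s ⟨r1, r2⟩ ⟨s1, s2⟩
    refine ⟨fun π hπ => by rw [mul_assoc, s1 π hπ, ← mul_assoc, r1 π hπ, mul_assoc], ?_⟩
    intro t p hp
    obtain ⟨q, hq, hp⟩ := supp_apply r _ p hp
    obtain ⟨f, hf, rfl⟩ := s2 t q hq
    obtain ⟨g, hg, rfl⟩ := r2 _ p hp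
    exact ⟨g ∘ f, M.comp_mem _ _ hg hf, by simp⟩
  one_mem' := by
    refine ⟨fun π _ => by simp, fun t p hp => ⟨id, M.id_mem, ?_⟩⟩
    simpa using Finset.mem_singleton.1 (Finsupp.support_single_subset hp)
  add_mem' := by
    classical
    rintro r s ⟨r1, r2⟩ ⟨s1, s2⟩
    refine ⟨fun π hπ => by rw [add_mul, mul_add, r1 π hπ, s1 π hπ], ?_⟩
    intro t p hp
    rcases Finset.mem_union.1 (Finsupp.support_add hp) with h | h
    · exact r2 t p h
    · exact s2 t p h
  zero_mem' := ⟨fun π _ => by simp, fun t p hp => by simp at hp⟩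
  neg_mem' := by
    rintro r ⟨r1, r2⟩
    refine ⟨fun π hπ => by rw [neg_mul, mul_neg, r1 π hπ], fun t p hp => r2 t p ?_⟩
    simpa using hp

def Cl {A : Type} [AddCommGroup A] (Q : Subring (Module.End ℤ A)) : Prop :=
  ∀ r : Module.End ℤ A, (∀ F : Finset A, ∃ q ∈ Q, ∀ a ∈ F, q a = r a) → r ∈ Q

theorem RM_cl (M : LocMon Y) : Cl (RM M) := by
  classical
  intro r hr
  constructor
  · intro π hπ
    refine LinearMap.ext fun a => ?_
    obtain ⟨q, hq, h⟩ := hr {a, lm π a}
    have := LinearMap.congr_fun (hq.1 π hπ) a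
    simp only [Module.End.mul_apply] at this ⊢
    rw [← h a (by simp), ← h (lm π a) (by simp), this]
  · intro t p hp
    obtain ⟨q, hq, h⟩ := hr {Finsupp.single t 1}
    rw [← h _ (by simp)] at hp
    exact hq.2 t p hp

theorem star_nat (f : Y → Y) : IsNat (lm (List.map f)) := by
  intro π hπ
  rw [lm_mul, lm_mul]
  congr 1
  funext t
  exact (hπ f t).symm

theorem star_mem (M : LocMon Y) (f : Y → Y) (hf : f ∈ M.carrier) : lm (List.map f) ∈ RM M := by
  refine ⟨star_nat f, fun t p hp => ⟨f, hf, ?_⟩⟩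
  rw [lm_single] at hp
  exact Finset.mem_singleton.1 (Finsupp.support_single_subset hp)

theorem mem_of_star (M : LocMon Y) (f : Y → Y) (hf : lm (List.map f) ∈ RM M) :
    f ∈ M.carrier := by
  refine (closed_iff _).1 M.closed f fun F => ?_
  obtain ⟨g, hg, h⟩ := hf.2 F.toList (F.toList.map f) (by simp [lm_single])
  exact ⟨g, hg, fun a ha => (List.map_inj_left.1 h a (Finset.mem_toList.2 ha)).symm⟩

theorem lift_supp (r : Module.End ℤ (AA Y)) (hr : IsNat r) (t u p : List Y)
    (hp : p ∈ (r (Finsupp.single t 1)).support) :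
    ∃ q ∈ (r (Finsupp.single (t ++ u) 1)).support, q.take t.length = p := by
  classical
  have h := LinearMap.congr_fun (hr (List.take t.length) fun f s => (List.map_take ..).symm)
    (Finsupp.single (t ++ u) 1)
  simp only [Module.End.mul_apply, lm_single, List.take_left'] at h
  rw [h] at hp
  obtain ⟨q, hq, h1⟩ := Finset.mem_image.1 (Finsupp.mapDomain_support hp)
  exact ⟨q, hq, h1⟩

theorem RM_inf [Countable Y] [Nonempty Y] (M N : LocMon Y) (r : Module.End ℤ (AA Y))
    (h1 : r ∈ RM M) (h2 : r ∈ RM N) : r ∈ RM (sInf {M, N}) := by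
  refine ⟨h1.1, fun t p hp => ?_⟩
  obtain ⟨y, hy⟩ := exists_surjective_nat Y
  let T : ℕ → List Y := fun k => Nat.rec t (fun k s => s ++ [y k]) k
  choose lf lf1 lf2 using fun k => lift_supp r h1.1 (T k) [y k]
  let s : ∀ k, {p // p ∈ (r (Finsupp.single (T k) 1)).support} := fun k =>
    Nat.rec ⟨p, hp⟩ (fun k s => ⟨lf k s.1 s.2, lf1 k s.1 s.2⟩) k
  choose f hf ef using fun k => h1.2 (T k) (s k).1 (s k).2
  choose g hg eg using fun k => h2.2 (T k) (s k).1 (s k).2
  have hstep : ∀ k, ∀ a ∈ T k, f (k + 1) a = f k a := by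
    intro k
    have e : (s (k + 1)).1.take (T k).length = (s k).1 := lf2 k (s k).1 (s k).2
    rw [ef (k + 1), ef k] at e
    have e2 : T (k + 1) = T k ++ [y k] := rfl
    rw [e2, List.map_append, List.take_left' (by simp)] at e
    exact List.map_inj_left.1 e
  have hmono : ∀ j k, j ≤ k → ∀ a ∈ T j, a ∈ T k ∧ f k a = f j a := by
    intro j k hjk a ha
    induction k, hjk using Nat.le_induction with
    | base => exact ⟨ha, rfl⟩
    | succ k _ ih => exact ⟨List.mem_append_left _ ih.1, (hstep k a ih.1).trans ih.2⟩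
  have hκ : ∀ a, ∃ k, a ∈ T k := by
    intro a
    obtain ⟨k, rfl⟩ := hy a
    exact ⟨k + 1, List.mem_append_right _ (by simp)⟩
  choose κ hκ using hκ
  have hfg : ∀ k, ∀ a ∈ T k, g k a = f k a := fun k =>
    List.map_inj_left.1 ((eg k).symm.trans (ef k))
  refine ⟨fun a => f (κ a) a, Set.mem_iInter₂.2 ?_, ?_⟩
  · rintro E (rfl | rfl)
    · refine (closed_iff _).1 E.closed _ fun F => ⟨f (F.sup κ), hf _, fun a ha => ?_⟩
      exact (hmono _ _ (Finset.le_sup ha) a (hκ a)).2
    · refine (closed_iff _).1 E.closed _ fun F => ⟨g (F.sup κ), hg _, fun a ha => ?_⟩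
      have := hmono _ _ (Finset.le_sup (f := κ) ha) a (hκ a)
      exact (hfg _ a this.1).trans this.2
  · have e : p = t.map (f 0) := ef 0
    rw [e]
    exact List.map_inj_left.2 fun a ha => (hmono 0 _ (Nat.zero_le _) a ha).2.symm

theorem exists_concat (S : Finset (List Y)) : ∃ t, ∀ s ∈ S, ∃ π, NatF π ∧ π t = s := by
  classical
  induction S using Finset.induction_on with
  | empty => exact ⟨[], by simp⟩
  | insert s S _ ih =>
    obtain ⟨t, ht⟩ := ih
    refine ⟨s ++ t, fun u hu => ?_⟩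
    rcases Finset.mem_insert.1 hu with rfl | hu
    · exact ⟨List.take u.length, fun f s => (List.map_take ..).symm, by simp⟩
    · obtain ⟨π, h1, h2⟩ := ht u hu
      refine ⟨π ∘ List.drop s.length, fun f v => ?_, by simpa using h2⟩
      simp only [comp_apply]
      rw [← List.map_drop, h1]

theorem RM_le (M : LocMon Y) (Q : Subring (Module.End ℤ (AA Y))) (hQ : Cl Q)
    (h : ∀ f ∈ M.carrier, lm (List.map f) ∈ Q) : RM M ≤ Q := by
  classical
  intro r hr
  refine hQ r fun F => ?_
  obtain ⟨t, ht⟩ := exists_concat (F.biUnion Finsupp.support)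
  haveI : Nonempty (Y → Y) := ⟨id⟩
  choose! f hf ef using hr.2 t
  let q : Module.End ℤ (AA Y) :=
    ∑ p ∈ (r (Finsupp.single t 1)).support, r (Finsupp.single t 1) p • lm (List.map (f p))
  have hq1 : q ∈ Q := Subring.sum_mem _ fun p hp => Subring.zsmul_mem _ (h _ (hf p hp)) _
  have hq2 : q ∈ RM M :=
    Subring.sum_mem _ fun p hp => Subring.zsmul_mem _ (star_mem M _ (hf p hp)) _
  have hq3 : q (Finsupp.single t 1) = r (Finsupp.single t 1) := by
    conv_rhs => rw [← Finsupp.sum_single (r (Finsupp.single t 1)), Finsupp.sum]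
    simp only [q, LinearMap.sum_apply, LinearMap.smul_apply, lm_single]
    refine Finset.sum_congr rfl fun p hp => ?_
    rw [← ef p hp, Finsupp.smul_single, smul_eq_mul, mul_one]
  refine ⟨q, hq1, fun a ha => ?_⟩
  rw [apply_eq_sum q, apply_eq_sum r]
  refine Finset.sum_congr rfl fun s hs => ?_
  obtain ⟨π, h1, rfl⟩ := ht s (Finset.mem_biUnion.2 ⟨a, ha, hs⟩)
  have e1 := LinearMap.congr_fun (hq2.1 π h1) (Finsupp.single t 1)
  have e2 := LinearMap.congr_fun (hr.1 π h1) (Finsupp.single t 1)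
  simp only [Module.End.mul_apply, lm_single] at e1 e2
  rw [e1, e2, hq3]

def preM (Q : Subring (Module.End ℤ (AA Y))) (hQ : Cl Q) : LocMon Y where
  carrier := {f | lm (List.map f) ∈ Q}
  id_mem := by
    show lm (List.map id) ∈ Q
    rw [List.map_id_fun, lm_id]
    exact Q.one_mem
  comp_mem f g hf hg := by
    show lm (List.map (f ∘ g)) ∈ Q
    rw [← List.map_comp_map, ← lm_mul]
    exact Q.mul_mem hf hg
  closed := by
    classical
    rw [closed_iff]
    intro f hf
    refine hQ _ fun F => ?_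
    obtain ⟨g, hg, h⟩ := hf ((F.biUnion Finsupp.support).biUnion List.toFinset)
    refine ⟨_, hg, fun a ha => ?_⟩
    rw [apply_eq_sum, apply_eq_sum (lm (List.map f))]
    refine Finset.sum_congr rfl fun s hs => ?_
    rw [lm_single, lm_single, List.map_inj_left.2 fun b hb => h b ?_]
    exact Finset.mem_biUnion.2 ⟨s, Finset.mem_biUnion.2 ⟨a, ha, hs⟩, List.mem_toFinset.2 hb⟩

end Step2

/-! Step 3: rings into groups -/

section Step3
variable {A : Type} [AddCommGroup A]

noncomputable def ent (u : Module.End ℤ (ℕ →₀ A)) (i j : ℕ) : Module.End ℤ A :=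
  Finsupp.lapply i ∘ₗ u ∘ₗ Finsupp.lsingle j

noncomputable def el (i : ℕ) (r : Module.End ℤ A) (j : ℕ) : Module.End ℤ (ℕ →₀ A) :=
  Finsupp.lsingle i ∘ₗ r ∘ₗ Finsupp.lapply j

theorem ent_apply (u : Module.End ℤ (ℕ →₀ A)) (i j : ℕ) (a : A) :
    ent u i j a = u (Finsupp.single j a) i := rfl

theorem el_apply (i : ℕ) (r : Module.End ℤ A) (j : ℕ) (b : ℕ →₀ A) :
    el i r j b = Finsupp.single i (r (b j)) := rfl

theorem el_mul_ne (i j k l : ℕ) (r s : Module.End ℤ A) (h : j ≠ k) : el i r j * el k s l = 0 := by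
  refine LinearMap.ext fun b => ?_
  simp [el_apply, Finsupp.single_eq_of_ne h]

theorem el_mul (i j l : ℕ) (r s : Module.End ℤ A) : el i r j * el j s l = el i (r * s) l := by
  refine LinearMap.ext fun b => ?_
  simp [el_apply]

theorem decomp (b : ℕ →₀ A) (K : Finset ℕ) (h : b.support ⊆ K) :
    ∑ k ∈ K, Finsupp.single k (b k) = b := by
  conv_rhs => rw [← Finsupp.sum_single b]
  rw [Finsupp.sum_of_support_subset _ h _ (by simp)]

theorem apply_decomp (u : Module.End ℤ (ℕ →₀ A)) (b : ℕ →₀ A) (K : Finset ℕ) (h : b.support ⊆ K)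
    (i : ℕ) : u b i = ∑ k ∈ K, ent u i k (b k) := by
  conv_lhs => rw [← decomp b K h, map_sum, Finsupp.finset_sum_apply]
  rfl

def SM (R : Subring (Module.End ℤ A)) (hR : Cl R) : Subring (Module.End ℤ (ℕ →₀ A)) where
  carrier := {u | ∀ i j, ent u i j ∈ R}
  mul_mem' := by
    classical
    intro u v hu hv i j
    refine hR _ fun F => ?_
    refine ⟨∑ k ∈ F.biUnion fun a => (v (Finsupp.single j a)).support, ent u i k * ent v k j,
      Subring.sum_mem _ fun k _ => R.mul_mem (hu i k) (hv k j), fun a ha => ?_⟩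
    rw [ent_apply, Module.End.mul_apply, apply_decomp u _ _
      (Finset.subset_biUnion_of_mem (fun a => (v (Finsupp.single j a)).support) ha),
      LinearMap.sum_apply]
    rfl
  one_mem' := by
    intro i j
    by_cases h : i = j
    · subst h
      have : ent (1 : Module.End ℤ (ℕ →₀ A)) i i = 1 := LinearMap.ext fun a => by simp [ent_apply]
      rw [this]; exact R.one_mem
    · have : ent (1 : Module.End ℤ (ℕ →₀ A)) i j = 0 := LinearMap.ext fun a => by
        simp [ent_apply, Finsupp.single_eq_of_ne h]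
      rw [this]; exact R.zero_mem
  add_mem' := fun hu hv i j => R.add_mem (hu i j) (hv i j)
  zero_mem' := fun _ _ => R.zero_mem
  neg_mem' := fun hu i j => R.neg_mem (hu i j)

theorem el_mem (R : Subring (Module.End ℤ A)) (hR : Cl R) (i j : ℕ) (r : Module.End ℤ A)
    (hr : r ∈ R) : el i r j ∈ SM R hR := by
  intro k l
  by_cases h : k = i ∧ j = l
  · obtain ⟨rfl, rfl⟩ := h
    have : ent (el k r j) k j = r := LinearMap.ext fun a => by simp [ent_apply, el_apply]
    rw [this]; exact hr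
  · have : ent (el i r j) k l = 0 := LinearMap.ext fun a => by
      simp only [ent_apply, el_apply, LinearMap.zero_apply]
      by_cases h1 : k = i
      · rw [Finsupp.single_eq_of_ne fun h2 => h ⟨h1, h2⟩]; simp
      · exact Finsupp.single_eq_of_ne h1
    rw [this]; exact R.zero_mem

theorem lin_of_approx (R : Subring (Module.End ℤ A)) (hR : Cl R) (g : (ℕ →₀ A) → (ℕ →₀ A))
    (hg : ∀ F : Finset (ℕ →₀ A), ∃ u ∈ SM R hR, ∀ b ∈ F, u b = g b) :
    ∃ u ∈ SM R hR, g = u := by
  classical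
  have hadd : ∀ b c, g (b + c) = g b + g c := by
    intro b c
    obtain ⟨u, -, h⟩ := hg {b, c, b + c}
    rw [← h b (by simp), ← h c (by simp), ← h (b + c) (by simp), map_add]
  refine ⟨(AddMonoidHom.mk' g hadd).toIntLinearMap, fun i j => hR _ fun F => ?_, rfl⟩
  obtain ⟨u, hu, h⟩ := hg (F.image (Finsupp.single j))
  refine ⟨_, hu i j, fun a ha => ?_⟩
  rw [ent_apply, ent_apply, h _ (Finset.mem_image_of_mem _ ha)]
  rfl

def GR (R : Subring (Module.End ℤ A)) (hR : Cl R) : LocGrp (ℕ →₀ A) where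
  carrier :=
    { carrier := {g | (∃ u ∈ SM R hR, ⇑g = u) ∧ ∃ v ∈ SM R hR, ⇑g⁻¹ = v}
      mul_mem' := by
        rintro g h ⟨⟨u, hu, e1⟩, v, hv, e2⟩ ⟨⟨u', hu', e3⟩, v', hv', e4⟩
        refine ⟨⟨u * u', Subring.mul_mem _ hu hu', ?_⟩, v' * v, Subring.mul_mem _ hv' hv, ?_⟩
        · rw [Equiv.Perm.coe_mul, e1, e3]; rfl
        · rw [mul_inv_rev, Equiv.Perm.coe_mul, e2, e4]; rfl
      one_mem' := ⟨⟨1, Subring.one_mem _, rfl⟩, 1, Subring.one_mem _, rfl⟩
      inv_mem' := fun h => ⟨h.2, h.1⟩ }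
  closed := by
    classical
    rw [closed_iff']
    intro g hg
    constructor
    · refine lin_of_approx R hR _ fun F => ?_
      obtain ⟨h, ⟨⟨u, hu, e⟩, -⟩, h1⟩ := hg F
      exact ⟨u, hu, fun b hb => by rw [← e, h1 b hb]⟩
    · refine lin_of_approx R hR _ fun F => ?_
      obtain ⟨h, ⟨-, v, hv, e⟩, h1⟩ := hg (F.image ⇑g⁻¹)
      refine ⟨v, hv, fun b hb => ?_⟩
      rw [← e, Equiv.Perm.inv_eq_iff_eq, h1 _ (Finset.mem_image_of_mem _ hb)]
      simp

noncomputable def mkP (x : Module.End ℤ (ℕ →₀ A)) (h : x * x = 0) : Equiv.Perm (ℕ →₀ A) where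
  toFun := ⇑(1 + x)
  invFun := ⇑(1 + -x)
  left_inv b := by
    have : (1 + -x) * (1 + x) = 1 := by noncomm_ring [h]
    exact LinearMap.congr_fun this b
  right_inv b := by
    have : (1 + x) * (1 + -x) = 1 := by noncomm_ring [h]
    exact LinearMap.congr_fun this b

theorem mkP_mem (R : Subring (Module.End ℤ A)) (hR : Cl R) (i j : ℕ) (hij : j ≠ i)
    (r : Module.End ℤ A) (hr : r ∈ R) :
    mkP (el i r j) (el_mul_ne _ _ _ _ _ _ hij) ∈ (GR R hR).carrier :=
  ⟨⟨_, Subring.add_mem _ (Subring.one_mem _) (el_mem R hR i j r hr), rfl⟩, _,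
    Subring.add_mem _ (Subring.one_mem _) (Subring.neg_mem _ (el_mem R hR i j r hr)), rfl⟩

def UH (H : LocGrp (ℕ →₀ A)) : Submonoid (Module.End ℤ (ℕ →₀ A)) where
  carrier := {u | ∃ h ∈ H.carrier, ⇑h = u}
  mul_mem' := by
    rintro u v ⟨g, hg, e1⟩ ⟨h, hh, e2⟩
    exact ⟨g * h, H.carrier.mul_mem hg hh, by rw [Equiv.Perm.coe_mul, e1, e2]; rfl⟩
  one_mem' := ⟨1, H.carrier.one_mem, rfl⟩

theorem UH_neg (H : LocGrp (ℕ →₀ A)) (x : Module.End ℤ (ℕ →₀ A)) (hx : x * x = 0)
    (h : 1 + x ∈ UH H) : 1 + -x ∈ UH H := by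
  obtain ⟨g, hg, e⟩ := h
  have : g = mkP x hx := Equiv.ext fun b => congrFun e b
  subst this
  exact ⟨_, H.carrier.inv_mem hg, rfl⟩

theorem comm_ring {S : Type} [Ring S] (x y : S) (h1 : x * x = 0) (h2 : y * y = 0)
    (h3 : y * x = 0) : (1 + x) * (1 + y) * (1 + -x) * (1 + -y) = 1 + x * y := by
  have e : (1 + x) * (1 + y) * (1 + -x) * (1 + -y) = 1 + x * y - x * x - y * y - y * x
      + x * x * y + y * x * y - x * (y * x) - x * (y * y) + x * (y * x) * y := by noncomm_ring
  rw [e, h1, h2, h3]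
  simp

def QH (H : LocGrp (ℕ →₀ A)) (R : Subring (Module.End ℤ A)) (hR : Cl R) (hH : GR R hR ≤ H) :
    Subring (Module.End ℤ A) where
  carrier := {r | ∀ i j, j ≠ i → 1 + el i r j ∈ UH H}
  mul_mem' := by
    intro r s hr hs i j hij
    have h1 : i + j + 1 ≠ i := by omega
    have h2 : j ≠ i + j + 1 := by omega
    rw [← el_mul i (i + j + 1) j, ← comm_ring _ _ (el_mul_ne _ _ _ _ _ _ h1)
      (el_mul_ne _ _ _ _ _ _ h2) (el_mul_ne _ _ _ _ _ _ hij)]
    exact Submonoid.mul_mem _ (Submonoid.mul_mem _ (Submonoid.mul_mem _ (hr _ _ h1) (hs _ _ h2))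
      (UH_neg H _ (el_mul_ne _ _ _ _ _ _ h1) (hr _ _ h1)))
      (UH_neg H _ (el_mul_ne _ _ _ _ _ _ h2) (hs _ _ h2))
  one_mem' := fun i j hij => ⟨_, hH (mkP_mem R hR i j hij 1 R.one_mem), rfl⟩
  add_mem' := by
    intro r s hr hs i j hij
    have e1 : el i (r + s) j = el i r j + el i s j := LinearMap.ext fun b => by simp [el_apply]
    have e2 : (1 + el i r j) * (1 + el i s j) = 1 + el i (r + s) j := by
      rw [e1]
      noncomm_ring [el_mul_ne i j i j r s hij]
    rw [← e2]
    exact Submonoid.mul_mem _ (hr _ _ hij) (hs _ _ hij)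
  zero_mem' := fun i j hij => ⟨_, hH (mkP_mem R hR i j hij 0 R.zero_mem), rfl⟩
  neg_mem' := by
    intro r hr i j hij
    have e1 : el i (-r) j = -el i r j := LinearMap.ext fun b => by simp [el_apply]
    rw [e1]
    exact UH_neg H _ (el_mul_ne _ _ _ _ _ _ hij) (hr _ _ hij)

theorem QH_cl (H : LocGrp (ℕ →₀ A)) (R : Subring (Module.End ℤ A)) (hR : Cl R)
    (hH : GR R hR ≤ H) : Cl (QH H R hR hH) := by
  classical
  intro r hr i j hij
  refine ⟨mkP _ (el_mul_ne i j i j r r hij), (closed_iff' _).1 H.closed _ fun F => ?_, rfl⟩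
  obtain ⟨q, hq, h⟩ := hr (F.image fun b => b j)
  obtain ⟨g, hg, e⟩ := hq i j hij
  refine ⟨g, hg, fun b hb => ?_⟩
  rw [e]
  show b + el i q j b = b + el i r j b
  rw [el_apply, el_apply, h _ (Finset.mem_image_of_mem _ hb)]

theorem block (H : LocGrp (ℕ →₀ A)) {κ : Type} (K : Finset κ) (a b : κ → ℕ)
    (r : κ → Module.End ℤ A) (hab : ∀ p ∈ K, ∀ q ∈ K, b p ≠ a q)
    (hr : ∀ p ∈ K, 1 + el (a p) (r p) (b p) ∈ UH H) :
    1 + ∑ p ∈ K, el (a p) (r p) (b p) ∈ UH H := by
  classical
  induction K using Finset.induction_on with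
  | empty => simpa using (UH H).one_mem
  | insert p K hp ih =>
    have h0 : el (a p) (r p) (b p) * ∑ p ∈ K, el (a p) (r p) (b p) = 0 := by
      rw [Finset.mul_sum]
      exact Finset.sum_eq_zero fun q hq => el_mul_ne _ _ _ _ _ _
        (hab p (Finset.mem_insert_self _ _) q (Finset.mem_insert_of_mem hq))
    have e : (1 + el (a p) (r p) (b p)) * (1 + ∑ p ∈ K, el (a p) (r p) (b p)) =
        1 + (el (a p) (r p) (b p) + ∑ p ∈ K, el (a p) (r p) (b p)) := by
      noncomm_ring [h0]
    rw [Finset.sum_insert hp, ← e]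
    exact Submonoid.mul_mem _ (hr p (Finset.mem_insert_self _ _))
      (ih (fun p hp q hq => hab p (Finset.mem_insert_of_mem hp) q (Finset.mem_insert_of_mem hq))
        fun p hp => hr p (Finset.mem_insert_of_mem hp))

theorem GR_le (H : LocGrp (ℕ →₀ A)) (R : Subring (Module.End ℤ A)) (hR : Cl R)
    (hH : ∀ r ∈ R, ∀ i j, j ≠ i → 1 + el i r j ∈ UH H) : GR R hR ≤ H := by
  classical
  rintro g ⟨⟨u, hu, e1⟩, v, hv, e2⟩
  refine (closed_iff' _).1 H.closed _ fun F => ?_
  obtain ⟨n, hn⟩ := ((F.biUnion Finsupp.support) ∪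
    (F.biUnion fun b => (u b).support)).exists_nat_subset_range
  set K := Finset.range n
  have m1 := block H (K ×ˢ K) (fun p => n + p.1) (fun p => p.2) (fun p => ent u p.1 p.2)
    (fun p hp q _ => by have := Finset.mem_range.1 (Finset.mem_product.1 hp).2; omega)
    fun p hp => hH _ (hu _ _) _ _
      (by have := Finset.mem_range.1 (Finset.mem_product.1 hp).2; omega)
  have m2 := block H (K ×ˢ K) (fun p => p.1) (fun p => n + p.2) (fun p => -ent v p.1 p.2)
    (fun p _ q hq => by have := Finset.mem_range.1 (Finset.mem_product.1 hq).1; omega)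
    fun p hp => hH _ (R.neg_mem (hv _ _)) _ _
      (by have := Finset.mem_range.1 (Finset.mem_product.1 hp).1; omega)
  have m3 := block H K (fun p => p) (fun p => n + p) (fun _ => 1)
    (fun p _ q hq => by have := Finset.mem_range.1 hq; omega)
    fun p hp => hH _ R.one_mem _ _ (by have := Finset.mem_range.1 hp; omega)
  have m4 := block H K (fun p => n + p) (fun p => p) (fun _ => -1)
    (fun p hp q _ => by have := Finset.mem_range.1 hp; omega)
    fun p hp => hH _ (R.neg_mem R.one_mem) _ _ (by have := Finset.mem_range.1 hp; omega)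
  obtain ⟨h, hh, e⟩ := (UH H).mul_mem m4 ((UH H).mul_mem m3 ((UH H).mul_mem m2 m1))
  refine ⟨h, hh, fun b hb => ?_⟩
  have hb1 : b.support ⊆ K :=
    ((Finset.subset_biUnion_of_mem _ hb).trans Finset.subset_union_left).trans hn
  have hb2 : (u b).support ⊆ K :=
    ((Finset.subset_biUnion_of_mem (fun b => (u b).support) hb).trans
      Finset.subset_union_right).trans hn
  have hvu : v (u b) = b := by rw [← e1, ← e2]; simp
  rw [e, e1]
  set c := u b with hc
  let d : ℕ →₀ A := ∑ i ∈ K, Finsupp.single (n + i) (c i)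
  have hz : ∀ (x : ℕ →₀ A), x.support ⊆ K → ∀ i, x (n + i) = 0 := fun x hx i =>
    Finsupp.notMem_support_iff.1 fun h => by have := Finset.mem_range.1 (hx h); omega
  have d1 : ∀ i ∈ K, d (n + i) = c i := by
    intro i hi
    simp only [d, Finsupp.finset_sum_apply, Finsupp.single_apply, add_right_inj]
    rw [Finset.sum_ite_eq', if_pos hi]
  have d2 : ∀ i ∈ K, d i = 0 := by
    intro i hi
    simp only [d, Finsupp.finset_sum_apply]
    refine Finset.sum_eq_zero fun j _ => Finsupp.single_eq_of_ne ?_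
    have := Finset.mem_range.1 hi
    omega
  have s1 : (1 + ∑ p ∈ K ×ˢ K, el (n + p.1) (ent u p.1 p.2) p.2) b = b + d := by
    simp only [LinearMap.add_apply, Module.End.one_apply, LinearMap.sum_apply, el_apply,
      Finset.sum_product, d]
    congr 1
    refine Finset.sum_congr rfl fun i _ => ?_
    rw [hc, apply_decomp u b K hb1, Finsupp.single_finset_sum]
  have s2 : (1 + ∑ p ∈ K ×ˢ K, el p.1 (-ent v p.1 p.2) (n + p.2)) (b + d) = d := by
    simp only [LinearMap.add_apply, Module.End.one_apply, LinearMap.sum_apply, el_apply,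
      Finset.sum_product]
    have : ∑ i ∈ K, ∑ j ∈ K, Finsupp.single i ((-ent v i j) ((b + d) (n + j))) = -b := by
      conv_rhs => rw [← decomp b K hb1, ← Finset.sum_neg_distrib]
      refine Finset.sum_congr rfl fun i _ => ?_
      rw [← Finsupp.single_finset_sum, ← Finsupp.single_neg]
      congr 1
      conv_rhs => rw [← hvu, apply_decomp v c K hb2, ← Finset.sum_neg_distrib]
      refine Finset.sum_congr rfl fun j hj => ?_
      rw [Finsupp.add_apply, hz b hb1, zero_add, d1 j hj, LinearMap.neg_apply]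
    rw [this]
    abel
  have s3 : (1 + ∑ p ∈ K, el p (1 : Module.End ℤ A) (n + p)) d = d + c := by
    simp only [LinearMap.add_apply, Module.End.one_apply, LinearMap.sum_apply, el_apply]
    congr 1
    conv_rhs => rw [← decomp c K hb2]
    exact Finset.sum_congr rfl fun i hi => by rw [d1 i hi]
  have s4 : (1 + ∑ p ∈ K, el (n + p) (-1 : Module.End ℤ A) p) (d + c) = c := by
    simp only [LinearMap.add_apply, Module.End.one_apply, LinearMap.sum_apply, el_apply]
    have : ∑ i ∈ K, Finsupp.single (n + i) ((-1 : Module.End ℤ A) ((d + c) i)) = -d := by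
      simp only [d]
      rw [← Finset.sum_neg_distrib]
      refine Finset.sum_congr rfl fun i hi => ?_
      rw [Finsupp.add_apply, d2 i hi, zero_add, ← Finsupp.single_neg]
      rfl
    rw [this]
    abel
  rw [Module.End.mul_apply, Module.End.mul_apply, Module.End.mul_apply, s1, s2, s3, s4]

end Step3

theorem step2 {Y : Type} [Countable Y] [Nonempty Y] : Emb (LocMon Y) (LocGrp (ℕ →₀ AA Y)) := by
  have hmono : ∀ M N : LocMon Y, M ≤ N → RM M ≤ RM N := fun M N h r hr =>
    ⟨hr.1, fun t p hp => (hr.2 t p hp).imp fun _ hf => ⟨h hf.1, hf.2⟩⟩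
  refine mkEmb (fun M => GR (RM M) (RM_cl M)) ?_ ?_ ?_ ?_
  · rintro M N h g ⟨⟨u, hu, e1⟩, v, hv, e2⟩
    exact ⟨⟨u, fun i j => hmono M N h (hu i j), e1⟩, v, fun i j => hmono M N h (hv i j), e2⟩
  · intro M N h f hf
    obtain ⟨⟨u, hu, e⟩, -⟩ := h (mkP_mem (RM M) (RM_cl M) 0 1 one_ne_zero _ (star_mem M f hf))
    apply mem_of_star
    have : ent u 0 1 = lm (List.map f) := LinearMap.ext fun a => by
      rw [ent_apply, ← e]
      show (Finsupp.single 1 a + el 0 (lm (List.map f)) 1 (Finsupp.single 1 a) : ℕ →₀ AA Y) 0 = _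
      simp [el_apply]
    rw [← this]
    exact hu 0 1
  · intro M N H h1 h2
    refine ⟨sInf {M, N}, sInf_le (by simp), sInf_le (by simp), fun g hg => ?_⟩
    obtain ⟨⟨u, hu, e1⟩, v, hv, e2⟩ := h1 hg
    obtain ⟨⟨u', hu', e3⟩, v', hv', e4⟩ := h2 hg
    obtain rfl : u = u' := DFunLike.coe_injective (e1.symm.trans e3)
    obtain rfl : v = v' := DFunLike.coe_injective (e2.symm.trans e4)
    exact ⟨⟨u, fun i j => RM_inf M N _ (hu i j) (hu' i j), e1⟩, v,
      fun i j => RM_inf M N _ (hv i j) (hv' i j), e2⟩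
  · intro M N H h1 h2
    refine ⟨preM (QH H _ _ h1) (QH_cl H _ _ h1), fun f hf i j hij => ?_, fun f hf i j hij => ?_, ?_⟩
    · exact ⟨_, h1 (mkP_mem _ _ i j hij _ (star_mem M f hf)), rfl⟩
    · exact ⟨_, h2 (mkP_mem _ _ i j hij _ (star_mem N f hf)), rfl⟩
    · exact GR_le H _ _ fun r hr => RM_le _ _ (QH_cl H _ _ h1) (fun f hf => hf) hr

/-- For countably infinite `X`, the lattice of local clones on `X` embeds as a lattice into the
lattice of closed monoids on `X` and into the lattice of closed permutation groups on `X`. -/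
theorem result (X : Type) [Countable X] [Infinite X] :
    (∃ Φ : LatticeHom (LocClone X) (LocMon X), Function.Injective Φ) ∧
    (∃ Ψ : LatticeHom (LocClone X) (LocGrp X), Function.Injective Ψ) := by
  obtain ⟨e1⟩ : Nonempty (Sq X ≃ X) := nonempty_equiv_of_countable
  obtain ⟨e2⟩ : Nonempty ((ℕ →₀ AA (Sq X)) ≃ X) := nonempty_equiv_of_countable
  exact ⟨step1.trans (emb_trM e1), (step1.trans step2).trans (emb_trG e2)⟩

end Pool.Agent.Results.MP_cac0a5_al.Embed
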